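import Pool.Agent.Y554.NE.Stm

/-!
Project NE, BASE: sets of edges at one position.
-/

set_option autoImplicit false

namespace Pool.Agent.Y100.NE

open H974 H12S Finset Pool.Agent.Y554.NE

lemma mem_blk {c : ℤ × ℤ} {ρ : ℕ} {e : Edg} (h : e ∈ blk c ρ) :
    c.1 - ρ ≤ e.1 ∧ e.1 ≤ c.1 + ρ ∧ c.2 - ρ ≤ e.2.1 ∧ e.2.1 ≤ c.2 + ρ := by
  obtain ⟨x, y, b⟩ := e
  cases b
  · simp only [blk, mem_RE_false] at h
    simp only
    omega
  · simp only [blk, mem_RE_true] at h
    simp only
    omega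

lemma blk_mono {c : ℤ × ℤ} {ρ σ : ℕ} (h : ρ ≤ σ) : blk c ρ ⊆ blk c σ := by
  rintro ⟨x, y, b⟩ he
  cases b
  · simp only [blk, mem_RE_false] at he ⊢
    omega
  · simp only [blk, mem_RE_true] at he ⊢
    omega

lemma mem_blk_one {x e : Edg} (h : ds e x = 0) : e ∈ blk (pos x) 1 := by
  obtain ⟨a, b, c⟩ := e
  have h1 : (a - x.1).natAbs = 0 := by
    have : (a - x.1).natAbs ≤ ds (a, b, c) x := le_max_left _ _
    omega
  have h2 : (b - x.2.1).natAbs = 0 := by
    have : (b - x.2.1).natAbs ≤ ds (a, b, c) x := le_max_right _ _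
    omega
  cases c
  · simp only [blk, mem_RE_false, pos]
    omega
  · simp only [blk, mem_RE_true, pos]
    omega

lemma pos_eq {x e : Edg} (h : ds e x = 0) : pos e = pos x := by
  have h1 : (e.1 - x.1).natAbs ≤ ds e x := le_max_left _ _
  have h2 : (e.2.1 - x.2.1).natAbs ≤ ds e x := le_max_right _ _
  refine Prod.ext ?_ ?_
  · change e.1 = x.1
    omega
  · change e.2.1 = x.2.1
    omega

lemma ds_of_pos {x e : Edg} (h : pos e = pos x) : ds e x = 0 := by
  have h1 : e.1 = x.1 := (Prod.ext_iff.1 h).1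
  have h2 : e.2.1 = x.2.1 := (Prod.ext_iff.1 h).2
  unfold ds
  rw [h1, h2]
  simp

/-- BASE: all the edges at one position. -/
theorem base (hc : S_CH1) (hq : S_Q1) : S_BASE := by
  obtain ⟨C1, K, hC1, hK, hch⟩ := hc
  obtain ⟨hq1, hq2, hq3, -⟩ := hq
  have hKr : (1:ℝ) ≤ K := by exact_mod_cast hK
  have hM : (1:ℝ) ≤ (((4 * K : ℕ)) : ℝ) ^ 2 := by
    have : (1:ℝ) ≤ (((4 * K : ℕ)) : ℝ) := by exact_mod_cast (by omega : 1 ≤ 4 * K)
    nlinarith
  refine ⟨C1 * (((4 * K : ℕ)) : ℝ) ^ 2, by nlinarith, ?_⟩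
  intro a n t' S x hCa hn ht' hS hx hall
  have hdm : dm S = 0 := by
    unfold dm
    rw [← Nat.bot_eq_zero, Finset.sup_eq_bot_iff]
    intro a ha
    rw [Finset.sup_eq_bot_iff]
    intro b hb
    exact ds_of_pos ((pos_eq (hall a ha)).trans (pos_eq (hall b hb)).symm)
  rw [hdm, max_eq_left (Nat.zero_le _)]
  set c := pos x with hcdef
  have hxb : x ∈ blk (0, 0) n := by
    have := hS hx
    obtain ⟨u, v, w⟩ := x
    cases w
    · simp only [boxE, blk, mem_RE_false] at this ⊢
      omega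
    · simp only [boxE, blk, mem_RE_true] at this ⊢
      omega
  have hcn : |c.1| ≤ n ∧ |c.2| ≤ n := by
    have h := mem_blk hxb
    simp only at h
    constructor
    · rw [abs_le]
      change -(n:ℤ) ≤ x.1 ∧ x.1 ≤ n
      omega
    · rw [abs_le]
      change -(n:ℤ) ≤ x.2.1 ∧ x.2.1 ≤ n
      omega
  -- the product over the tree
  have hq11 : ∀ c', q1 n c' 1 1 = 1 := by
    intro c'
    have h1 := hq1 n c' 1 1 1 le_rfl le_rfl le_rfl
    have h2 := (hq2 n c' 1 1 le_rfl le_rfl).1
    have h3 : q1 n c' 1 1 * (q1 n c' 1 1 - 1) = 0 := by linarith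
    rcases mul_eq_zero.1 h3 with h | h <;> linarith
  have hprod : ∏ y ∈ S.erase x, psi n y (ds y ((fun _ => x) y)) = 1 := by
    refine Finset.prod_eq_one fun y hy => ?_
    have h1 := hall y (Finset.mem_of_mem_erase hy)
    simp only [h1]
    unfold psi cap
    simp [hq11]
  have htree : ∀ y ∈ S, y ≠ x → (fun _ => x) y ∈ S ∧
      (fun y => if y = x then 0 else 1) ((fun _ => x) y) < (fun y => if y = x then 0 else 1) y ∧
      ds y ((fun _ => x) y) ≤ 0 := by
    intro y hy hyx
    refine ⟨hx, ?_, (hall y hy).le⟩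
    simp [hyx]
  have hcap : cap n t' = max 1 t' := by
    unfold cap
    rw [min_eq_left ht']
  by_cases hD : 1 ≤ t' / (2 * K)
  · set D := t' / (2 * K) with hDdef
    have hD1 : 2 * K * D ≤ t' := Nat.mul_div_le t' (2 * K)
    have hD2 : t' < 2 * K * (D + 1) := Nat.lt_mul_div_succ t' (by omega)
    have hDt : D ≤ t' := by nlinarith
    obtain ⟨Ch, hloc, himp, hpr⟩ := hch n 1 D c le_rfl hD (hDt.trans ht') hcn.1 hcn.2
    have hKD : K * D ≤ t' / 2 := by
      rw [Nat.le_div_iff_mul_le (by norm_num)]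
      nlinarith
    have hSb : ∀ e ∈ S, e ∈ blk c 1 := fun e he => mem_blk_one (hall e he)
    refine ⟨Ch, fun _ => x, fun y => if y = x then 0 else 1, ?_, ?_, htree, ?_⟩
    · intro F F' hFF
      refine hloc F F' ?_
      have hsub : blk c (K * D) \ blk c 1 ⊆ nb S (t' / 2) \ S := by
        intro e he
        rw [Finset.mem_sdiff] at he ⊢
        refine ⟨?_, fun h => he.2 (hSb e h)⟩
        unfold nb
        rw [Finset.mem_biUnion]
        exact ⟨x, hx, blk_mono hKD he.1⟩
      ext e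
      have h1 := Finset.ext_iff.1 hFF e
      simp only [Finset.mem_inter] at h1 ⊢
      constructor
      · rintro ⟨h2, h3⟩
        exact ⟨(h1.1 ⟨h2, hsub h3⟩).1, h3⟩
      · rintro ⟨h2, h3⟩
        exact ⟨(h1.2 ⟨h2, hsub h3⟩).1, h3⟩
    · intro S' hSS' hS'b hfar F hF hQ
      obtain ⟨T, hT, hPv⟩ := hQ x (hSS' hx)
      have hxm : x ∈ blk c 1 ∩ boxE n := Finset.mem_inter.2 ⟨hSb x hx, hS hx⟩
      have h1 : Ch ((F \ S') ∪ T) := by
        refine himp _ ?_ ⟨?_, ?_⟩
        · exact Finset.union_subset (Finset.sdiff_subset.trans hF) (hT.trans hS'b)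
        · refine BS_Cn_mono ?_ hPv.1
          refine Set.insert_subset (Or.inr ?_) Set.subset_union_left
          exact_mod_cast hxm
        · refine fun h => hPv.2 (BS_Cn_mono ?_ h)
          refine Set.sdiff_subset_sdiff_right ?_
          rw [Set.singleton_subset_iff]
          exact_mod_cast hxm
      refine (hloc _ _ ?_).1 h1
      ext e
      simp only [Finset.mem_inter, Finset.mem_union, Finset.mem_sdiff]
      have hout : e ∈ blk c (K * D) ∧ e ∉ blk c 1 → e ∉ S' := by
        rintro ⟨h2, h3⟩ h4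
        by_cases h5 : e ∈ S
        · exact h3 (hSb e h5)
        · have h6 := hfar x hx e (Finset.mem_sdiff.2 ⟨h4, h5⟩)
          have h7 := mem_blk h2
          have h8 : c.1 = x.1 := rfl
          have h9 : c.2 = x.2.1 := rfl
          have h10 : ds x e ≤ K * D := by
            unfold ds
            rw [max_le_iff]
            omega
          have h11 : t' / 2 ≤ t' := Nat.div_le_self _ _
          omega
      constructor
      · rintro ⟨h2 | h2, h3⟩
        · exact ⟨h2.1, h3⟩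
        · exact absurd (hT h2) (hout h3)
      · rintro ⟨h2, h3⟩
        exact ⟨Or.inl ⟨h2, hout h3⟩, h3⟩
    · rw [hprod, pow_one, mul_one]
      unfold psi
      rw [hcap, max_eq_right (hD.trans hDt)]
      change _ ≤ a * q1 n c 1 t'
      have h1 := hq1 n c 1 D t' le_rfl hD hDt
      have h2 := hq3 n c D t' (4 * K) hD hDt (by omega) (by nlinarith)
      have h3 := (hq2 n c 1 D le_rfl hD).1
      have h4 := (hq2 n c 1 t' le_rfl (hD.trans hDt)).1
      have h5 : q1 n c 1 D ≤ (((4 * K : ℕ)) : ℝ) ^ 2 * q1 n c 1 t' := by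
        rw [← h1]
        calc q1 n c 1 D = q1 n c 1 D * 1 := (mul_one _).symm
          _ ≤ q1 n c 1 D * ((((4 * K : ℕ)) : ℝ) ^ 2 * q1 n c D t') :=
              mul_le_mul_of_nonneg_left h2 h3.le
          _ = _ := by ring
      calc PQ (1 / 2) (boxE n) Ch ≤ C1 * q1 n c 1 D := hpr
        _ ≤ C1 * ((((4 * K : ℕ)) : ℝ) ^ 2 * q1 n c 1 t') :=
            mul_le_mul_of_nonneg_left h5 (by linarith)
        _ = (C1 * (((4 * K : ℕ)) : ℝ) ^ 2) * q1 n c 1 t' := by ring
        _ ≤ a * q1 n c 1 t' := mul_le_mul_of_nonneg_right hCa h4.le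
  · have hD' : t' < 2 * K := by
      by_contra h
      exact hD ((Nat.one_le_div_iff (by omega)).2 (by omega))
    refine ⟨fun _ => True, fun _ => x, fun y => if y = x then 0 else 1, ?_, ?_, htree, ?_⟩
    · intro F F' _
      rfl
    · intros
      trivial
    · rw [hprod, pow_one, mul_one]
      unfold psi
      rw [hcap]
      change _ ≤ a * q1 n c 1 (max 1 t')
      have h0 : PQ (1 / 2) (boxE n) (fun _ => True) ≤ 1 :=
        Pr_le_one (okq (by norm_num) (by norm_num)) _ _
      have h1 := hq3 n c 1 (max 1 t') (4 * K) le_rfl (le_max_left _ _) (by omega) (by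
        rw [max_le_iff]
        omega)
      have h4 := (hq2 n c 1 (max 1 t') le_rfl (le_max_left _ _)).1
      calc PQ (1 / 2) (boxE n) (fun _ => True) ≤ 1 := h0
        _ ≤ (((4 * K : ℕ)) : ℝ) ^ 2 * q1 n c 1 (max 1 t') := h1
        _ ≤ (C1 * (((4 * K : ℕ)) : ℝ) ^ 2) * q1 n c 1 (max 1 t') := by
            refine mul_le_mul_of_nonneg_right ?_ h4.le
            nlinarith
        _ ≤ a * q1 n c 1 (max 1 t') := mul_le_mul_of_nonneg_right hCa h4.le

end Pool.Agent.Y100.NE
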